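import Pool.Agent.Run7.h282.PM.Iface

/-!
# Project PM (helper282), piece RES (helper824)
-/

set_option autoImplicit false

open Finset

namespace Run7.h824.PM

open Run7.h282.PM

variable {F : Type} [Field F] [Fintype F] {κ : Type} [DecidableEq κ]

lemma Aop_mono {ι : Type} [Fintype ι] [DecidableEq ι] (φ : (ι → F) → (κ → F)) : Monotone (Aop φ) := by
  intro f g h y
  unfold Aop
  have : ∑ x : ι → F, f (mulv (φ x) y) ≤ ∑ x : ι → F, g (mulv (φ x) y) := Finset.sum_le_sum fun x _ => h _
  gcongr

lemma Aop_comm (hB : S_BASE) {ι ι' : Type} [Fintype ι] [DecidableEq ι] [Fintype ι'] [DecidableEq ι']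
    (φ : (ι → F) → (κ → F)) (ψ : (ι' → F) → (κ → F)) : Function.Commute (Aop φ) (Aop ψ) := by
  intro f
  funext y
  unfold Aop
  rw [← Finset.sum_div, ← Finset.sum_div, Finset.sum_comm, div_right_comm]
  congr 2
  refine Finset.sum_congr rfl fun x _ => Finset.sum_congr rfl fun x' _ => ?_
  rw [(hB F κ).1]

/-- **RES** -/
theorem t_RES (hB : S_BASE) (hI : S_IDX) : S_RES := by
  intro F _ _ κ _ _ S m
  have key : (A0 F κ)^[m] zf ≤ (Aop (ext S))^[m] zf := by
    induction m with
    | zero => exact le_rfl
    | succ m ih =>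
      have hmA : Monotone (A0 F κ) := Aop_mono _
      have hmB : Monotone (Aop (ext (F := F) S)) := Aop_mono _
      have hc : Function.Commute (A0 F κ) (Aop (ext (F := F) S)) := Aop_comm hB _ _
      have h1 : A0 F κ zf ≤ Aop (ext S) zf := fun y => hI F κ S y
      rw [Function.iterate_succ_apply]
      refine ((hmA.iterate m) h1).trans ?_
      rw [(hc.iterate_left m).eq, Function.iterate_succ_apply']
      exact hmB ih
  exact fun y => key y

end Run7.h824.PM
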